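import Mathlib

set_option autoImplicit false

namespace Pool.Agent.H39.TD

open Finset

/-- at least two of the three coordinates of `d` are positive -/
def Good (d : Fin 3 → ℝ) : Prop :=
  (0 < d 0 ∧ 0 < d 1) ∨ (0 < d 0 ∧ 0 < d 2) ∨ (0 < d 1 ∧ 0 < d 2)

theorem good_of {d : Fin 3 → ℝ} {i j : Fin 3} (hij : i ≠ j) (hi : 0 < d i) (hj : 0 < d j) :
    Good d := by
  fin_cases i <;> fin_cases j <;> simp_all [Good]

theorem exists_notMem (F : Finset ℝ) {l u : ℝ} (h : l < u) : ∃ x, l < x ∧ x < u ∧ x ∉ F := by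
  have hinf : (Set.Ioo l u).Infinite := Set.Ioo_infinite h
  obtain ⟨x, hx, hxF⟩ := hinf.exists_notMem_finset F
  exact ⟨x, hx.1, hx.2, hxF⟩

/-- the vector with prescribed coordinates `i`, `j` and sum zero -/
theorem exists_vec {i j k : Fin 3} (hij : i ≠ j) (hik : i ≠ k) (hjk : j ≠ k) (x y : ℝ) :
    ∃ w : Fin 3 → ℝ, w i = x ∧ w j = y ∧ w k = -x - y ∧ w 0 + w 1 + w 2 = 0 := by
  refine ⟨fun t => if t = i then x else if t = j then y else -x - y, ?_, ?_, ?_, ?_⟩
  · simp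
  · simp [hij.symm]
  · simp [hik.symm, hjk.symm]
  · fin_cases i <;> fin_cases j <;> simp_all <;> ring

theorem exists_pt (F : Finset ℝ) {i j k : Fin 3} (hij : i ≠ j) (hik : i ≠ k) (hjk : j ≠ k)
    {li ui lj uj : ℝ} (hi : li < ui) (hj : lj < uj) :
    ∃ w : Fin 3 → ℝ, (li < w i ∧ w i < ui) ∧ (lj < w j ∧ w j < uj) ∧ w k = -w i - w j ∧
      w 0 + w 1 + w 2 = 0 ∧ ∀ t, w t ∉ F := by
  obtain ⟨x, hx1, hx2, hxF⟩ := exists_notMem F hi
  obtain ⟨y, hy1, hy2, hyF⟩ := exists_notMem (F ∪ F.image (fun f => -x - f)) hj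
  obtain ⟨w, h1, h2, h3, h4⟩ := exists_vec hij hik hjk x y
  refine ⟨w, ⟨by rw [h1]; exact hx1, by rw [h1]; exact hx2⟩,
    ⟨by rw [h2]; exact hy1, by rw [h2]; exact hy2⟩, by rw [h1, h2, h3], h4, ?_⟩
  rw [mem_union, not_or] at hyF
  intro t
  have ht : t = i ∨ t = j ∨ t = k := by
    have hd : ∀ i j k t : Fin 3, i ≠ j → i ≠ k → j ≠ k → t = i ∨ t = j ∨ t = k := by decide
    exact hd i j k t hij hik hjk
  rcases ht with rfl | rfl | rfl
  · rw [h1]; exact hxF
  · rw [h2]; exact hyF.1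
  · rw [h3]
    intro hF
    exact hyF.2 (mem_image.mpr ⟨-x - y, hF, by ring⟩)

theorem sum_eq {w : Fin 3 → ℝ} {i j k : Fin 3} (hij : i ≠ j) (hik : i ≠ k) (hjk : j ≠ k)
    (h : w 0 + w 1 + w 2 = 0) : w i + w j + w k = 0 := by
  fin_cases i <;> fin_cases j <;> fin_cases k <;> simp_all <;> linarith

/-- one in-neighbour at the origin, two out-neighbours `b`, `c` -/
theorem one_two_zero (F : Finset ℝ) (b c : Fin 3 → ℝ) (hb : b 0 + b 1 + b 2 = 0)
    (hc : c 0 + c 1 + c 2 = 0) (hb0 : ∀ t, b t ≠ 0) (hc0 : ∀ t, c t ≠ 0) :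
    ∃ w : Fin 3 → ℝ, w 0 + w 1 + w 2 = 0 ∧ (∀ t, w t ∉ F) ∧ Good w ∧
      Good (fun t => b t - w t) ∧ Good (fun t => c t - w t) := by
  by_cases hA : ∃ k, 0 < b k ∧ 0 < c k
  · obtain ⟨k, hbk, hck⟩ := hA
    obtain ⟨i, j, hik, hjk, hij⟩ : ∃ i j : Fin 3, i ≠ k ∧ j ≠ k ∧ i ≠ j := by
      revert k; intro k _ _; fin_cases k
      · exact ⟨1, 2, by decide, by decide, by decide⟩
      · exact ⟨0, 2, by decide, by decide, by decide⟩
      · exact ⟨0, 1, by decide, by decide, by decide⟩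
    set M : ℝ := max 0 (max (max (b i) (c i)) (max (-b j) (-c j))) with hM
    obtain ⟨w, ⟨h1, h2⟩, ⟨h3, h4⟩, h5, h6, h7⟩ := exists_pt F (i := k) (j := i) (k := j)
      hik.symm hjk.symm hij (li := 0) (ui := min (b k) (c k)) (lj := M) (uj := M + 1)
      (lt_min hbk hck) (by linarith)
    have hM0 : 0 ≤ M := le_max_left _ _
    have hMbi : b i ≤ M := le_trans (le_trans (le_max_left _ _) (le_max_left _ _)) (le_max_right _ _)
    have hMci : c i ≤ M := le_trans (le_trans (le_max_right _ _) (le_max_left _ _)) (le_max_right _ _)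
    have hMbj : -b j ≤ M := le_trans (le_trans (le_max_left _ _) (le_max_right _ _)) (le_max_right _ _)
    have hMcj : -c j ≤ M := le_trans (le_trans (le_max_right _ _) (le_max_right _ _)) (le_max_right _ _)
    have hk1 := lt_of_lt_of_le h2 (min_le_left _ _)
    have hk2 := lt_of_lt_of_le h2 (min_le_right _ _)
    refine ⟨w, h6, h7, good_of hik.symm h1 (by linarith), good_of (i := k) (j := j) hjk.symm ?_ ?_,
      good_of (i := k) (j := j) hjk.symm ?_ ?_⟩
    · linarith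
    · linarith
    · linarith
    · linarith
  · push Not at hA
    -- the symmetric construction
    have key : ∀ (b c : Fin 3 → ℝ) (i j k : Fin 3), i ≠ j → i ≠ k → j ≠ k →
        b 0 + b 1 + b 2 = 0 → c 0 + c 1 + c 2 = 0 → 0 < b i → b j < 0 → b k < 0 → 0 < c j →
        c i < 0 → ∃ w : Fin 3 → ℝ, w 0 + w 1 + w 2 = 0 ∧ (∀ t, w t ∉ F) ∧ Good w ∧
          Good (fun t => b t - w t) ∧ Good (fun t => c t - w t) := by
      intro b c i j k hij hik hjk hb hc hbi hbj hbk hcj hci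
      have hbs := sum_eq hij hik hjk hb
      have hcs := sum_eq hij hik hjk hc
      obtain ⟨w, ⟨h1, h2⟩, ⟨h3, h4⟩, h5, h6, h7⟩ := exists_pt F hij hik hjk
        (li := -b k) (ui := b i) (lj := max 0 (-c k)) (uj := c j) (by linarith)
        (max_lt hcj (by linarith))
      have h30 : 0 < w j := lt_of_le_of_lt (le_max_left _ _) h3
      have h31 : -c k < w j := lt_of_le_of_lt (le_max_right _ _) h3
      refine ⟨w, h6, h7, good_of hij (by linarith) h30, good_of (i := i) (j := k) hik ?_ ?_,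
        good_of (i := j) (j := k) hjk ?_ ?_⟩
      · linarith
      · linarith
      · linarith
      · linarith
    have hpos : ∀ d : Fin 3 → ℝ, d 0 + d 1 + d 2 = 0 → (∀ t, d t ≠ 0) → ∃ i, 0 < d i := by
      intro d hd hd0
      by_contra hcon
      push Not at hcon
      have h0 := lt_of_le_of_ne (hcon 0) (hd0 0)
      have h1 := lt_of_le_of_ne (hcon 1) (hd0 1)
      have h2 := lt_of_le_of_ne (hcon 2) (hd0 2)
      linarith
    obtain ⟨i, hi⟩ := hpos b hb hb0
    obtain ⟨j, hj⟩ := hpos c hc hc0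
    have hci : c i < 0 := lt_of_le_of_ne (hA i hi) (hc0 i)
    have hbj : b j < 0 := by
      rcases lt_or_gt_of_ne (hb0 j) with h | h
      · exact h
      · exact absurd (hA j h) (not_le.mpr hj)
    have hij : i ≠ j := by rintro rfl; linarith
    obtain ⟨k, hik, hjk⟩ : ∃ k : Fin 3, i ≠ k ∧ j ≠ k := by
      have hd : ∀ i j : Fin 3, ∃ k : Fin 3, i ≠ k ∧ j ≠ k := by decide
      exact hd i j
    rcases lt_or_gt_of_ne (hb0 k) with hbk | hbk
    · exact key b c i j k hij hik hjk hb hc hi hbj hbk hj hci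
    · have hck : c k < 0 := lt_of_le_of_ne (hA k hbk) (hc0 k)
      obtain ⟨w, h1, h2, h3, h4, h5⟩ := key c b j i k hij.symm hjk hik hc hb hj hci hck hi hbj
      exact ⟨w, h1, h2, h3, h5, h4⟩

end Pool.Agent.H39.TD
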