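import Pool.Agent.H39.TD.Base

set_option autoImplicit false

namespace Pool.Agent.H39.TD

open Finset

theorem good_neg {d : Fin 3 → ℝ} (h : ∀ t, d t ≠ 0) (hg : ¬ Good d) : Good (fun t => -d t) := by
  unfold Good at *
  push Not at hg
  obtain ⟨h1, h2, h3⟩ := hg
  rcases lt_or_gt_of_ne (h 0) with a | a <;> rcases lt_or_gt_of_ne (h 1) with b | b <;>
    rcases lt_or_gt_of_ne (h 2) with c | c <;>
    first
    | (left; exact ⟨by linarith, by linarith⟩)
    | (right; left; exact ⟨by linarith, by linarith⟩)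
    | (right; right; exact ⟨by linarith, by linarith⟩)
    | (exfalso; linarith [h1 a])
    | (exfalso; linarith [h2 a])
    | (exfalso; linarith [h3 b])

/-- one in-neighbour `a`, out-neighbours `b`, `c` -/
theorem one_two (F : Finset ℝ) (a b c : Fin 3 → ℝ) (ha : a 0 + a 1 + a 2 = 0)
    (hb : b 0 + b 1 + b 2 = 0) (hc : c 0 + c 1 + c 2 = 0) (hba : ∀ t, b t ≠ a t)
    (hca : ∀ t, c t ≠ a t) :
    ∃ w : Fin 3 → ℝ, w 0 + w 1 + w 2 = 0 ∧ (∀ t, w t ∉ F) ∧ Good (fun t => w t - a t) ∧
      Good (fun t => b t - w t) ∧ Good (fun t => c t - w t) := by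
  classical
  obtain ⟨w, h1, h2, h3, h4, h5⟩ := one_two_zero
    ((F ×ˢ (univ : Finset (Fin 3))).image (fun q => q.1 - a q.2))
    (fun t => b t - a t) (fun t => c t - a t) (by linarith) (by linarith)
    (fun t => sub_ne_zero.mpr (hba t)) (fun t => sub_ne_zero.mpr (hca t))
  refine ⟨fun t => w t + a t, by linarith, ?_, ?_, ?_, ?_⟩
  · intro t ht
    exact h2 t (mem_image.mpr ⟨(w t + a t, t), mem_product.mpr ⟨ht, mem_univ _⟩, by simp⟩)
  · simpa using h3
  · have : (fun t => b t - (w t + a t)) = fun t => (b t - a t) - w t := by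
      funext t; ring
    rw [this]; exact h4
  · have : (fun t => c t - (w t + a t)) = fun t => (c t - a t) - w t := by
      funext t; ring
    rw [this]; exact h5

theorem two_one (F : Finset ℝ) (a b c : Fin 3 → ℝ) (ha : a 0 + a 1 + a 2 = 0)
    (hb : b 0 + b 1 + b 2 = 0) (hc : c 0 + c 1 + c 2 = 0) (hba : ∀ t, b t ≠ a t)
    (hca : ∀ t, c t ≠ a t) :
    ∃ w : Fin 3 → ℝ, w 0 + w 1 + w 2 = 0 ∧ (∀ t, w t ∉ F) ∧ Good (fun t => a t - w t) ∧
      Good (fun t => w t - b t) ∧ Good (fun t => w t - c t) := by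
  classical
  obtain ⟨w, h1, h2, h3, h4, h5⟩ := one_two (F.image (fun x => -x))
    (fun t => -a t) (fun t => -b t) (fun t => -c t) (by linarith) (by linarith) (by linarith)
    (fun t h => hba t (neg_injective h)) (fun t h => hca t (neg_injective h))
  refine ⟨fun t => -w t, by linarith, ?_, ?_, ?_, ?_⟩
  · intro t ht
    exact h2 t (mem_image.mpr ⟨-w t, ht, by simp⟩)
  · have : (fun t => a t - -w t) = fun t => w t - -a t := by funext t; ring
    rw [this]; exact h3
  · have : (fun t => -w t - b t) = fun t => -b t - w t := by funext t; ring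
    rw [this]; exact h4
  · have : (fun t => -w t - c t) = fun t => -c t - w t := by funext t; ring
    rw [this]; exact h5

/-- a point above all points of a finite set -/
theorem sink (F : Finset ℝ) {V : Type} (P : Finset V) (p : V → Fin 3 → ℝ) :
    ∃ w : Fin 3 → ℝ, w 0 + w 1 + w 2 = 0 ∧ (∀ t, w t ∉ F) ∧
      ∀ v ∈ P, Good (fun t => w t - p v t) := by
  classical
  obtain ⟨M, hM⟩ : ∃ M : ℝ, ∀ v ∈ P, p v 0 < M ∧ p v 1 < M := by
    refine ⟨∑ v ∈ P, (|p v 0| + |p v 1|) + 1, fun v hv => ?_⟩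
    have h1 : |p v 0| + |p v 1| ≤ ∑ v ∈ P, (|p v 0| + |p v 1|) :=
      single_le_sum (f := fun v => |p v 0| + |p v 1|) (fun u _ => by positivity) hv
    have h2 := le_abs_self (p v 0)
    have h3 := le_abs_self (p v 1)
    have h4 := abs_nonneg (p v 0)
    have h5 := abs_nonneg (p v 1)
    exact ⟨by linarith, by linarith⟩
  obtain ⟨w, ⟨h1, h2⟩, ⟨h3, h4⟩, h5, h6, h7⟩ := exists_pt F (i := 0) (j := 1) (k := 2)
    (by decide) (by decide) (by decide) (li := M) (ui := M + 1) (lj := M) (uj := M + 1)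
    (by linarith) (by linarith)
  refine ⟨w, h6, h7, fun v hv => ?_⟩
  obtain ⟨h8, h9⟩ := hM v hv
  exact Or.inl ⟨by linarith, by linarith⟩

theorem source (F : Finset ℝ) {V : Type} (P : Finset V) (p : V → Fin 3 → ℝ) :
    ∃ w : Fin 3 → ℝ, w 0 + w 1 + w 2 = 0 ∧ (∀ t, w t ∉ F) ∧
      ∀ v ∈ P, Good (fun t => p v t - w t) := by
  classical
  obtain ⟨w, h1, h2, h3⟩ := sink (F.image (fun x => -x)) P (fun v t => -p v t)
  refine ⟨fun t => -w t, by linarith, ?_, ?_⟩
  · intro t ht
    exact h2 t (mem_image.mpr ⟨-w t, ht, by simp⟩)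
  · intro v hv
    have : (fun t => p v t - -w t) = fun t => w t - -p v t := by funext t; ring
    rw [this]; exact h3 v hv

/-- extension by one vertex with at most three neighbours: `I` in-neighbours, `O` out-neighbours -/
theorem extend {V : Type} [DecidableEq V] (F : Finset ℝ) (I O : Finset V) (p : V → Fin 3 → ℝ)
    (hs : ∀ v, p v 0 + p v 1 + p v 2 = 0)
    (hp : ∀ u ∈ I, ∀ v ∈ O, ∀ t, p u t ≠ p v t)
    (hcard0 : I = ∅ ∨ O = ∅ ∨ I.card + O.card ≤ 3) :
    ∃ w : Fin 3 → ℝ, w 0 + w 1 + w 2 = 0 ∧ (∀ t, w t ∉ F) ∧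
      (∀ v ∈ I, Good (fun t => w t - p v t)) ∧ ∀ v ∈ O, Good (fun t => p v t - w t) := by
  classical
  rcases I.eq_empty_or_nonempty with hI | ⟨a, ha⟩
  · obtain ⟨w, h1, h2, h3⟩ := source F O p
    exact ⟨w, h1, h2, by simp [hI], h3⟩
  rcases O.eq_empty_or_nonempty with hO | ⟨b, hb⟩
  · obtain ⟨w, h1, h2, h3⟩ := sink F I p
    exact ⟨w, h1, h2, h3, by simp [hO]⟩
  have hcard : I.card + O.card ≤ 3 := by
    rcases hcard0 with h | h | h
    · exact absurd (h ▸ ha) (notMem_empty a)
    · exact absurd (h ▸ hb) (notMem_empty b)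
    · exact h
  have hIpos : 0 < I.card := card_pos.mpr ⟨a, ha⟩
  have hOpos : 0 < O.card := card_pos.mpr ⟨b, hb⟩
  -- one of the two is a singleton, the other is contained in a pair
  have pair : ∀ S : Finset V, ∀ x ∈ S, S.card ≤ 2 → ∃ y ∈ S, ∀ z ∈ S, z = x ∨ z = y := by
    intro S x hx hS
    by_cases h : ∃ y ∈ S, y ≠ x
    · obtain ⟨y, hy, hyx⟩ := h
      refine ⟨y, hy, fun z hz => ?_⟩
      by_contra hcon
      push Not at hcon
      have : ({x, y, z} : Finset V) ⊆ S := by
        intro t ht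
        simp only [mem_insert, mem_singleton] at ht
        rcases ht with rfl | rfl | rfl <;> assumption
      have h3 : ({x, y, z} : Finset V).card = 3 :=
        card_eq_three.mpr ⟨x, y, z, hyx.symm, fun h => hcon.1 h.symm, fun h => hcon.2 h.symm, rfl⟩
      have := card_le_card this
      omega
    · push Not at h
      exact ⟨x, hx, fun z hz => Or.inl (h z hz)⟩
  by_cases h1 : I.card ≤ 1
  · obtain ⟨c, hc, hbc⟩ := pair O b hb (by omega)
    have hIa : ∀ v ∈ I, v = a := fun v hv => card_le_one.mp h1 v hv a ha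
    obtain ⟨w, g1, g2, g3, g4, g5⟩ := one_two F (p a) (p b) (p c) (hs a) (hs b) (hs c)
      (fun t => (hp a ha b hb t).symm) (fun t => (hp a ha c hc t).symm)
    refine ⟨w, g1, g2, fun v hv => ?_, fun v hv => ?_⟩
    · rw [hIa v hv]; exact g3
    · rcases hbc v hv with rfl | rfl
      · exact g4
      · exact g5
  · obtain ⟨c, hc, hac⟩ := pair I a ha (by omega)
    have hOb : ∀ v ∈ O, v = b := fun v hv => card_le_one.mp (by omega) v hv b hb
    obtain ⟨w, g1, g2, g3, g4, g5⟩ := two_one F (p b) (p a) (p c) (hs b) (hs a) (hs c)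
      (fun t => hp a ha b hb t) (fun t => hp c hc b hb t)
    refine ⟨w, g1, g2, fun v hv => ?_, fun v hv => ?_⟩
    · rcases hac v hv with rfl | rfl
      · exact g4
      · exact g5
    · rw [hOb v hv]; exact g3

/-- The geometric representation of an oriented graph every subset of which contains a source,
a sink or a vertex with at most three neighbours. `R u v`: there is an arc
from `u` to `v`. -/
theorem rep {V : Type} [DecidableEq V] (R : V → V → Prop) [DecidableRel R]
    (h2 : ∀ u v, R u v → ¬ R v u)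
    (hdeg : ∀ S : Finset V, S.Nonempty → ∃ v ∈ S, (∀ u ∈ S, ¬ R u v) ∨ (∀ u ∈ S, ¬ R v u) ∨
      (S.filter (fun u => R u v ∨ R v u)).card ≤ 3) :
    ∀ S : Finset V, ∃ p : V → Fin 3 → ℝ, (∀ v, p v 0 + p v 1 + p v 2 = 0) ∧
      (∀ u ∈ S, ∀ v ∈ S, u ≠ v → ∀ t, p u t ≠ p v t) ∧
      ∀ u ∈ S, ∀ v ∈ S, R u v → Good (fun t => p v t - p u t) := by
  intro S
  induction' hn : S.card with n ih generalizing S
  · rw [card_eq_zero] at hn
    subst hn
    exact ⟨fun _ _ => 0, by simp, by simp, by simp⟩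
  · have hne : S.Nonempty := card_pos.mp (by omega)
    obtain ⟨x, hx, hxd⟩ := hdeg S hne
    obtain ⟨p, hp1, hp2, hp3⟩ := ih (S.erase x) (by rw [card_erase_of_mem hx]; omega)
    have hxx : ¬ R x x := fun h => h2 x x h h
    set I := (S.erase x).filter (fun u => R u x) with hI
    set O := (S.erase x).filter (fun u => R x u) with hO
    have hIO : Disjoint I O := by
      rw [disjoint_left]
      intro u hu1 hu2
      exact h2 u x (mem_filter.mp hu1).2 (mem_filter.mp hu2).2
    have hcard : I = ∅ ∨ O = ∅ ∨ I.card + O.card ≤ 3 := by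
      rcases hxd with hxd | hxd | hxd
      · left
        rw [hI, filter_eq_empty_iff]
        exact fun u hu => hxd u (mem_of_mem_erase hu)
      · right; left
        rw [hO, filter_eq_empty_iff]
        exact fun u hu => hxd u (mem_of_mem_erase hu)
      right; right
      rw [← card_union_of_disjoint hIO]
      refine le_trans (card_le_card ?_) hxd
      intro u hu
      rw [mem_union, hI, hO, mem_filter, mem_filter] at hu
      rw [mem_filter]
      rcases hu with hu | hu
      · exact ⟨mem_of_mem_erase hu.1, Or.inl hu.2⟩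
      · exact ⟨mem_of_mem_erase hu.1, Or.inr hu.2⟩
    obtain ⟨w, hw1, hw2, hw3, hw4⟩ := extend
      (((S.erase x) ×ˢ (univ : Finset (Fin 3))).image (fun q => p q.1 q.2)) I O p hp1
      (fun u hu v hv t => hp2 u (mem_filter.mp hu).1 v (mem_filter.mp hv).1
        (fun h => (disjoint_left.mp hIO) hu (h ▸ hv)) t) hcard
    have hwp : ∀ u ∈ S, u ≠ x → ∀ t, w t ≠ p u t := by
      intro u hu hux t h
      exact hw2 t (mem_image.mpr ⟨(u, t), mem_product.mpr ⟨mem_erase.mpr ⟨hux, hu⟩, mem_univ _⟩,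
        h.symm⟩)
    refine ⟨Function.update p x w, ?_, ?_, ?_⟩
    · intro v
      by_cases hv : v = x
      · subst hv; simpa using hw1
      · simpa [Function.update_of_ne hv] using hp1 v
    · intro u hu v hv huv t
      by_cases hux : u = x
      · subst hux
        rw [Function.update_self, Function.update_of_ne (Ne.symm huv)]
        exact hwp v hv (Ne.symm huv) t
      · by_cases hvx : v = x
        · subst hvx
          rw [Function.update_self, Function.update_of_ne huv]
          exact (hwp u hu huv t).symm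
        · rw [Function.update_of_ne hux, Function.update_of_ne hvx]
          exact hp2 u (mem_erase.mpr ⟨hux, hu⟩) v (mem_erase.mpr ⟨hvx, hv⟩) huv t
    · intro u hu v hv huv
      by_cases hux : u = x
      · have hvx : v ≠ x := by
          rintro rfl; subst hux; exact hxx huv
        subst hux
        rw [Function.update_self, Function.update_of_ne hvx]
        exact hw4 v (mem_filter.mpr ⟨mem_erase.mpr ⟨hvx, hv⟩, huv⟩)
      · by_cases hvx : v = x
        · subst hvx
          rw [Function.update_self, Function.update_of_ne hux]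
          exact hw3 u (mem_filter.mpr ⟨mem_erase.mpr ⟨hux, hu⟩, huv⟩)
        · rw [Function.update_of_ne hux, Function.update_of_ne hvx]
          exact hp3 u (mem_erase.mpr ⟨hux, hu⟩) v (mem_erase.mpr ⟨hvx, hv⟩) huv

/-- The arc form. -/
theorem final (V A : Type) [Fintype V] [Fintype A] (tl hd : A → V)
    (hdeg : ∀ S : Finset V, S.Nonempty → ∃ v ∈ S,
      (¬ ∃ a, tl a ∈ S ∧ hd a = v) ∨ (¬ ∃ a, tl a = v ∧ hd a ∈ S) ∨
      {w : V | w ∈ S ∧ w ≠ v ∧ ∃ a, (tl a = v ∧ hd a = w) ∨ (tl a = w ∧ hd a = v)}.ncard ≤ 3)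
    (hg : ∀ (n : ℕ) (c : Fin (n + 1) → A), (∀ i, hd (c i) = tl (c (i + 1))) →
      Function.Injective (fun i => tl (c i)) → 3 ≤ n + 1) :
    ∃ T : Fin 3 → Finset A, Pairwise (fun i j => Disjoint (T i) (T j)) ∧
      ∀ i, ∀ (n : ℕ) (c : Fin (n + 1) → A), (∀ j, hd (c j) = tl (c (j + 1))) →
        Function.Injective (fun j => tl (c j)) → ∃ j, c j ∈ T i := by
  classical
  have hloop : ∀ a, tl a ≠ hd a := by
    intro a h
    have := hg 0 (fun _ => a) (fun i => h.symm) (fun i j _ => by fin_cases i; fin_cases j; rfl)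
    omega
  have h2c : ∀ a b, tl a = hd b → hd a = tl b → False := by
    intro a b h1 h2
    have := hg 1 ![a, b] (by
      intro i; fin_cases i
      · simpa using h2
      · simpa using h1.symm) (by
      intro i j hij
      fin_cases i <;> fin_cases j
      · rfl
      · exfalso; simp at hij; exact hloop b (by rw [← hij, h1])
      · exfalso; simp at hij; exact hloop b (by rw [hij, h1])
      · rfl)
    omega
  obtain ⟨p, -, hp2, hp3⟩ := rep (fun u v => ∃ a, tl a = u ∧ hd a = v)
    (by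
      rintro u v ⟨a, rfl, rfl⟩ ⟨b, h3, h4⟩
      exact h2c a b h4.symm h3.symm)
    (by
      intro S hS
      obtain ⟨v, hv, hv3⟩ := hdeg S hS
      refine ⟨v, hv, ?_⟩
      rcases hv3 with hv3 | hv3 | hv3
      · left
        rintro u hu ⟨a, ha1, ha2⟩
        exact hv3 ⟨a, ha1 ▸ hu, ha2⟩
      · right; left
        rintro u hu ⟨a, ha1, ha2⟩
        exact hv3 ⟨a, ha1, ha2 ▸ hu⟩
      right; right
      refine le_trans (le_of_eq ?_) hv3
      rw [← Set.ncard_coe_finset]
      congr 1
      ext w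
      simp only [coe_filter, Set.mem_ofPred_eq]
      constructor
      · rintro ⟨h1, ⟨a, h3, h4⟩ | ⟨a, h3, h4⟩⟩
        · exact ⟨h1, fun h => hloop a (by rw [h3, h4, h]), a, Or.inr ⟨h3, h4⟩⟩
        · exact ⟨h1, fun h => hloop a (by rw [h3, h4, h]), a, Or.inl ⟨h3, h4⟩⟩
      · rintro ⟨h1, -, a, ⟨h3, h4⟩ | ⟨h3, h4⟩⟩
        · exact ⟨h1, Or.inr ⟨a, h3, h4⟩⟩
        · exact ⟨h1, Or.inl ⟨a, h3, h4⟩⟩) univ
  have hgood : ∀ a, Good (fun t => p (hd a) t - p (tl a) t) := fun a =>
    hp3 _ (mem_univ _) _ (mem_univ _) ⟨a, rfl, rfl⟩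
  refine ⟨fun i => univ.filter (fun a => p (hd a) i < p (tl a) i), ?_, ?_⟩
  · intro i j hij
    rw [disjoint_left]
    intro a ha1 ha2
    have h1 := (mem_filter.mp ha1).2
    have h2 := (mem_filter.mp ha2).2
    have h3 := hgood a
    simp only [Good] at h3
    fin_cases i <;> fin_cases j <;> simp at hij h1 h2 <;>
      rcases h3 with ⟨g1, g2⟩ | ⟨g1, g2⟩ | ⟨g1, g2⟩ <;> linarith
  · intro i n c hc hinj
    by_contra hcon
    push Not at hcon
    have hlt : ∀ j, p (tl (c j)) i < p (hd (c j)) i := by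
      intro j
      have h1 := hcon j
      rw [mem_filter, not_and] at h1
      have h2 := not_lt.mp (h1 (mem_univ _))
      exact lt_of_le_of_ne h2 (hp2 _ (mem_univ _) _ (mem_univ _) (hloop _) i)
    have hsum : ∑ j, p (hd (c j)) i = ∑ j, p (tl (c j)) i := by
      have h1 : ∀ j, p (hd (c j)) i = p (tl (c (j + 1))) i := fun j => by rw [hc j]
      rw [sum_congr rfl (fun j _ => h1 j)]
      exact Equiv.sum_comp (Equiv.addRight (1 : Fin (n + 1))) (fun j => p (tl (c j)) i)
    have hlt2 : ∑ j, p (tl (c j)) i < ∑ j, p (hd (c j)) i :=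
      sum_lt_sum_of_nonempty ⟨0, mem_univ _⟩ (fun j _ => hlt j)
    linarith

end Pool.Agent.H39.TD
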